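import Mathlib
import Pool.Agent.X329.Dmod.Mult

/-!
# Holonomic D-modules in positive characteristic with non-integral multiplicity

Let `k` be any field of characteristic `p > 0` and `𝒟` the ring of differential operators of `k[x]`
(one variable, `n = 1`). Let `f = ∑_j x ^ (p ^ (4 ^ j) + p ^ (4 ^ j + 1))`, a formal power series such
that `D_t f` is a polynomial for every `t ≥ 1`, and `M = k[x] + k[x] f`, `M_0` the span of `1` and
`f`. Then `M` is holonomic, the limit superior of `dim_k (F_i M_0) / i` is `3 - 1 / p` and the
sequence does not converge.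
-/

set_option autoImplicit false

namespace Pool.Agent.Results.MP_12ebf5_al.MultiplicityNotIntegral

open Pool.Agent.X329.Dmod Polynomial Filter Topology

universe u

/-- For every field `k` of characteristic `p > 0` there are a holonomic module `M` over the ring of
differential operators of `k[x]` and a finite set `S` of generators of `M`, with `k`-span `M_0`, such
that `dim_k (F_i M_0) ≤ 7 i` for `i ≥ 1`, `e (M) = limsup dim_k (F_i M_0) / i = 3 - 1 / p`, which is
not an integer, and such that the sequence `dim_k (F_i M_0) / i` does not converge. -/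
theorem result (p : ℕ) [Fact p.Prime] (k : Type u) [Field k] [CharP k p] :
    ∃ (M : Type u) (_ : AddCommGroup M) (_ : Module k M) (_ : Module (DOp k) M)
      (_ : IsScalarTower k (DOp k) M) (S : Set M),
      IsHolonomic k M ∧ S.Finite ∧ Submodule.span (DOp k) S = ⊤ ∧
      (∀ i, 1 ≤ i → Module.rank k (stage k S i) ≤ ((7 * i : ℕ) : Cardinal)) ∧
      mult k S = 3 - 1 / p ∧ (∀ z : ℤ, mult k S ≠ z) ∧
      ¬ ∃ L : ℝ, Tendsto (fun i : ℕ => (Module.finrank k (stage k S i) : ℝ) / i) atTop (𝓝 L) := by
  have h : mult k (SF k p) = 3 - 1 / p := by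
    rw [mult, quo_F]
    exact limsup_quo p
  refine ⟨MF k p, inferInstance, inferInstance, inferInstance, inferInstance, SF k p,
    holonomic_F k p, (Set.finite_singleton _).insert _, gens_span _, fun i hi => ?_, h, ?_, ?_⟩
  · rw [rank_F]
    exact_mod_cast bound_F p i hi
  · intro z
    rw [h]
    exact three_sub_ne p z
  · rw [quo_F]
    exact not_tendsto p

end Pool.Agent.Results.MP_12ebf5_al.MultiplicityNotIntegral
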